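import Pool.Agent.H93.TN.TargetsD
import Pool.Agent.H86.B2.BL2
import Pool.Agent.H56.TN.HG3

/-! # BL3: one dyadic block on `ℝ^(a+b)`, smaller fraction (adapted from H86/B2/BL2.lean) -/

set_option autoImplicit false
set_option linter.unusedSectionVars false

namespace Pool.Agent.H56.TN

open MeasureTheory Set FourierTransform
open Pool.Agent.H83.LS Pool.Agent.H93.AR Pool.Agent.H54.LS Pool.Agent.H14.LS Pool.Agent.H83.AR
open Pool.Agent.H84.BR Pool.Agent.H84.B2 Pool.Agent.H19.LS Pool.Agent.H86.B2 Pool.Agent.H93.TN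
open scoped ENNReal NNReal ContDiff SchwartzMap

/-- interpolation between the two bounds -/
theorem gs_int3 {d : ℕ} {P : ℝ → (EE d → ℂ) → EE d → ℂ} (hP : PPr P) {p θ τ : ℝ} (hp : 2 < p) (hθ0 : 0 ≤ θ)
    (hθ1 : θ ≤ 1) (hτ : τ = p * θ) {K : ℕ}
    {CD : ℝ≥0} {lam : ℝ} (hl : 1 ≤ lam) (f : EE d → ℂ) (hf : Gd f) (B₀ B₁ : ℝ≥0∞)
    (h01 : B₀ ≤ B₁) (hB₀ : ∫⁻ x, ‖f x‖ₑ ^ p ≤ B₀)
    (hCD : ∀ L : ℝ, 1 ≤ L → ∫⁻ x, ‖f x - P L f x‖ₑ ^ p ≤ CD * ENNReal.ofReal (L ^ (-p)) * B₁)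
    (i : ℕ) (hi : i ≤ K) :
    ∫⁻ x, ‖gs P K lam i f x‖ₑ ^ p ≤
      (1 + ((2 : ℝ≥0∞) ^ p) ^ K * (1 + CD)) *
        ENNReal.ofReal (Li K lam i ^ (-τ)) * (B₀ ^ (1 - θ) * B₁ ^ θ) := by
  have hT : (1 : ℝ≥0∞) ≤ 2 ^ p := ENNReal.one_le_rpow (by norm_num) (by linarith)
  have h1 := gs_bd (K := K) hP (by linarith : (1 : ℝ) ≤ p) hl f hf B₀ B₁ h01 hB₀ hCD i hi
  set M : ℝ≥0∞ := 1 + ((2 : ℝ≥0∞) ^ p) ^ K * (1 + CD) with hM
  have h2 : ∫⁻ x, ‖gs P K lam i f x‖ₑ ^ p ≤ M * B₀ := by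
    refine (gs_lp hP hl (by linarith : (1 : ℝ) ≤ p) i hf).trans ?_
    refine mul_le_mul' ?_ hB₀
    calc ((2 : ℝ≥0∞) ^ p) ^ i ≤ ((2 : ℝ≥0∞) ^ p) ^ K := pow_le_pow_right' hT hi
      _ = ((2 : ℝ≥0∞) ^ p) ^ K * 1 := (mul_one _).symm
      _ ≤ ((2 : ℝ≥0∞) ^ p) ^ K * (1 + CD) := mul_le_mul' le_rfl le_self_add
      _ ≤ M := le_add_self
  set a := ∫⁻ x, ‖gs P K lam i f x‖ₑ ^ p with ha
  have hc0 : 0 ≤ θ := hθ0
  have hc1 : 0 ≤ 1 - θ := by linarith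
  have hL1 : 1 ≤ Li K lam i := Li_ge hl i
  have hL0 : 0 ≤ Li K lam i := by linarith
  have e1 : a = a ^ (1 - θ) * a ^ θ := by
    rw [← ENNReal.rpow_add_of_nonneg _ _ hc1 hc0]
    have : 1 - θ + θ = 1 := by ring
    rw [this, ENNReal.rpow_one]
  have e2 : M ^ (1 - θ) * M ^ θ = M := by
    rw [← ENNReal.rpow_add_of_nonneg _ _ hc1 hc0]
    have : 1 - θ + θ = 1 := by ring
    rw [this, ENNReal.rpow_one]
  have e3 : ENNReal.ofReal (Li K lam i ^ (-p)) ^ θ =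
      ENNReal.ofReal (Li K lam i ^ (-τ)) := by
    rw [ENNReal.ofReal_rpow_of_nonneg (Real.rpow_nonneg hL0 _) hc0, ← Real.rpow_mul hL0]
    rw [hτ]
    congr 2
    ring
  rw [e1]
  calc a ^ (1 - θ) * a ^ θ
      ≤ (M * B₀) ^ (1 - θ) * (M * (ENNReal.ofReal (Li K lam i ^ (-p)) * B₁)) ^ θ :=
        mul_le_mul' (ENNReal.rpow_le_rpow h2 hc1) (ENNReal.rpow_le_rpow h1 hc0)
    _ = (M ^ (1 - θ) * M ^ θ) * ENNReal.ofReal (Li K lam i ^ (-τ)) *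
        (B₀ ^ (1 - θ) * B₁ ^ θ) := by
        rw [ENNReal.mul_rpow_of_nonneg _ _ hc1, ENNReal.mul_rpow_of_nonneg _ _ hc0,
          ENNReal.mul_rpow_of_nonneg _ _ hc0, e3]
        ring
    _ = _ := by rw [e2]

/-- one dyadic block, abstract form -/
theorem bl_abs3 {d : ℕ} {P : ℝ → (EE d → ℂ) → EE d → ℂ} (hP : PPr P) (hPLE : T_PLE)
    (N p η θ τ : ℝ) (hN : 0 < N) (hp : 2 + 2 / N ≤ p) (hη : 0 < η) (hθ0 : 0 ≤ θ) (hθ1 : θ ≤ 1)
    (hτ : τ = p * θ) (hτ0 : 1 / 2 ≤ τ) (hτ1 : τ ≤ 1) (CS CF CD : ℝ≥0)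
    (hCS : ∀ (lam L : ℝ) (f : EE d → ℂ), 1 ≤ lam → 1 ≤ L → L ≤ lam ^ 2 → Measurable f →
      Integrable f → (∃ A : ℝ, ∀ x, ‖f x‖ ≤ A) →
      ∫⁻ t in Icc (1 : ℝ) 2, ∫⁻ x, ‖MM (mT lam t) (P L f) x‖ₑ ^ p ≤
        CS * ENNReal.ofReal (lam ^ (N * (p / 2 - 1) - 1 + η / 2) * L ^ τ) *
          ∫⁻ x, ‖f x‖ₑ ^ p)
    (hCF : ∀ (lam : ℝ) (f : EE d → ℂ), 1 ≤ lam → Measurable f →
      Integrable f → (∃ A : ℝ, ∀ x, ‖f x‖ ≤ A) →
      ∫⁻ t in Icc (1 : ℝ) 2, ∫⁻ x, ‖MM (mT lam t) f x‖ₑ ^ p ≤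
        CF * ENNReal.ofReal (lam ^ (N * (p / 2 - 1) + η)) * ∫⁻ x, ‖f x‖ₑ ^ p) :
    ∃ C : ℝ≥0, ∀ (lam : ℝ) (f : EE d → ℂ) (B₀ B₁ : ℝ≥0∞), 1 ≤ lam → B₀ ≤ B₁ → Gd f →
      ∫⁻ x, ‖f x‖ₑ ^ p ≤ B₀ →
      (∀ L : ℝ, 1 ≤ L → ∫⁻ x, ‖f x - P L f x‖ₑ ^ p ≤ CD * ENNReal.ofReal (L ^ (-p)) * B₁) →
      ∫⁻ t in Icc (1 : ℝ) 2, ∫⁻ x, ‖MM (mT lam t) f x‖ₑ ^ p ≤
        C * ENNReal.ofReal (lam ^ (N * (p / 2 - 1) - 1 + η)) *
          (B₀ ^ (1 - θ) * B₁ ^ θ) := by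
  have h2n : 0 < 2 / N := by positivity
  have hp2 : 2 < p := by linarith
  have hp1 : 1 ≤ p := by linarith
  obtain ⟨K, hK⟩ := exists_nat_gt (4 / η)
  have hKpos : (0 : ℝ) < K := lt_trans (by positivity) hK
  have hK1 : 2 / (K : ℝ) ≤ η / 2 := by
    rw [div_le_iff₀ hKpos]
    rw [div_lt_iff₀ hη] at hK
    nlinarith
  set E : ℝ := N * (p / 2 - 1) with hE
  set T : ℝ≥0∞ := 2 ^ p with hTdef
  have hT : (1 : ℝ≥0∞) ≤ T := ENNReal.one_le_rpow (by norm_num) (by linarith)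
  have hTtop : T ≠ ⊤ := ENNReal.rpow_ne_top_of_nonneg (by linarith) (by norm_num)
  set M : ℝ≥0∞ := 1 + T ^ K * (1 + CD) with hM
  have hMtop : M ≠ ⊤ := by
    rw [hM]
    exact ENNReal.add_ne_top.2 ⟨by norm_num, ENNReal.mul_ne_top (ENNReal.pow_ne_top hTtop)
      (ENNReal.add_ne_top.2 ⟨by norm_num, ENNReal.coe_ne_top⟩)⟩
  set c0 : ℝ≥0∞ := ((CS : ℝ≥0∞) + CF) * M with hc0
  have hc0top : c0 ≠ ⊤ := ENNReal.mul_ne_top
    (ENNReal.add_ne_top.2 ⟨ENNReal.coe_ne_top, ENNReal.coe_ne_top⟩) hMtop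
  have hCtop : T ^ K * c0 ≠ ⊤ := ENNReal.mul_ne_top (ENNReal.pow_ne_top hTtop) hc0top
  refine ⟨(T ^ K * c0).toNNReal, fun lam f B₀ B₁ hl h01 hf hB₀ hCD => ?_⟩
  rw [ENNReal.coe_toNNReal hCtop]
  have hl0 : 0 < lam := by linarith
  set lam4 : ℝ := lam ^ 4 with hlam4
  have hl4 : 1 ≤ lam4 := one_le_pow₀ hl
  have hLi : ∀ i : ℕ, Li K lam4 i = lam ^ (2 * (i : ℝ) / K) := by
    intro i
    unfold Li
    rw [hlam4, ← Real.rpow_natCast, ← Real.rpow_mul hl0.le]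
    congr 1
    push_cast
    field_simp
    ring
  have hg : ∀ i, Gd (gs P K lam4 i f) := fun i => gs_gd hP hl4 i hf
  have hmeas : ∀ g : EE d → ℂ, Gd g →
      Measurable fun q : ℝ × EE d => ‖MM (mT lam q.1) g q.2‖ₑ ^ p := fun g hg =>
    (MM_cont lam hl0 g hg.2.1).measurable.enorm.pow_const p
  have hbd := gs_int3 (K := K) hP hp2 hθ0 hθ1 hτ hl4 f hf B₀ B₁ h01 hB₀ hCD
  set B : ℝ≥0∞ := B₀ ^ (1 - θ) * B₁ ^ θ with hBdef
  set X : ℝ≥0∞ := ENNReal.ofReal (lam ^ (E - 1 + η)) * B with hX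
  -- the pieces
  have hJ : ∀ i < K, ∫⁻ q, ‖MM (mT lam q.1) (P (Li K lam4 (i + 1))
      (gs P K lam4 i f)) q.2‖ₑ ^ p ∂(stm d) ≤ c0 * X := by
    intro i hi
    have hL1 : 1 ≤ Li K lam4 (i + 1) := Li_ge hl4 _
    have hL2 : Li K lam4 (i + 1) ≤ lam ^ 2 := by
      rw [hLi, ← Real.rpow_natCast lam 2]
      apply Real.rpow_le_rpow_of_exponent_le hl
      have h1 : ((i + 1 : ℕ) : ℝ) ≤ K := by exact_mod_cast hi
      rw [div_le_iff₀ hKpos]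
      push_cast at h1 ⊢
      linarith
    have hgi := hg i
    have hAA : Gd (P (Li K lam4 (i + 1)) (gs P K lam4 i f)) := hP.gd _ _ hL1 hgi
    rw [← st_eq _ (hmeas _ hAA)]
    refine (hCS lam (Li K lam4 (i + 1)) (gs P K lam4 i f) hl hL1 hL2 hgi.1 hgi.2.1 hgi.2.2).trans ?_
    refine (mul_le_mul' le_rfl (hbd i hi.le)).trans ?_
    have hreal : lam ^ (E - 1 + η / 2) * Li K lam4 (i + 1) ^ τ * Li K lam4 i ^ (-τ) ≤
        lam ^ (E - 1 + η) := by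
      have e : lam ^ (E - 1 + η / 2) * Li K lam4 (i + 1) ^ τ * Li K lam4 i ^ (-τ) =
          lam ^ (E - 1 + η / 2 + 2 * ((i + 1 : ℕ) : ℝ) / K * τ + 2 * (i : ℝ) / K * (-τ)) := by
        rw [hLi, hLi, ← Real.rpow_mul hl0.le, ← Real.rpow_mul hl0.le,
          ← Real.rpow_add hl0, ← Real.rpow_add hl0]
      rw [e]
      apply Real.rpow_le_rpow_of_exponent_le hl
      have h1 : 2 * ((i + 1 : ℕ) : ℝ) / K * τ + 2 * (i : ℝ) / K * (-τ) = τ * (2 / K) := by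
        push_cast
        field_simp
        ring
      have h2 : τ * (2 / (K : ℝ)) ≤ 1 * (η / 2) :=
        mul_le_mul hτ1 hK1 (by positivity) (by norm_num)
      linarith
    have hLn : 0 ≤ Li K lam4 (i + 1) := by linarith
    have hL0 : (0 : ℝ) ≤ lam ^ (E - 1 + η / 2) * Li K lam4 (i + 1) ^ τ := by positivity
    calc (CS : ℝ≥0∞) * ENNReal.ofReal (lam ^ (E - 1 + η / 2) *
          Li K lam4 (i + 1) ^ τ) * (M * ENNReal.ofReal (Li K lam4 i ^ (-τ)) * B)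
        = (CS : ℝ≥0∞) * M * (ENNReal.ofReal (lam ^ (E - 1 + η / 2) * Li K lam4 (i + 1) ^ τ) *
            ENNReal.ofReal (Li K lam4 i ^ (-τ)) * B) := by
          ring
      _ ≤ c0 * X := by
          refine mul_le_mul' (mul_le_mul' le_self_add le_rfl) (mul_le_mul' ?_ le_rfl)
          rw [← ENNReal.ofReal_mul hL0]
          exact ENNReal.ofReal_le_ofReal hreal
  have hI : ∫⁻ q, ‖MM (mT lam q.1) (gs P K lam4 K f) q.2‖ₑ ^ p ∂(stm d) ≤ c0 * X := by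
    have hgi := hg K
    rw [← st_eq _ (hmeas _ hgi)]
    refine (hCF lam (gs P K lam4 K f) hl hgi.1 hgi.2.1 hgi.2.2).trans ?_
    refine (mul_le_mul' le_rfl (hbd K le_rfl)).trans ?_
    have hreal : lam ^ (E + η) * Li K lam4 K ^ (-τ) ≤ lam ^ (E - 1 + η) := by
      have e : lam ^ (E + η) * Li K lam4 K ^ (-τ) = lam ^ (E + η + 2 * (K : ℝ) / K * (-τ)) := by
        rw [hLi, ← Real.rpow_mul hl0.le, ← Real.rpow_add hl0]
      rw [e]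
      apply Real.rpow_le_rpow_of_exponent_le hl
      have h1 : 2 * (K : ℝ) / K * (-τ) = -(2 * τ) := by
        field_simp
      linarith
    have hL0 : (0 : ℝ) ≤ lam ^ (E + η) := by positivity
    calc (CF : ℝ≥0∞) * ENNReal.ofReal (lam ^ (E + η)) *
          (M * ENNReal.ofReal (Li K lam4 K ^ (-τ)) * B)
        = (CF : ℝ≥0∞) * M * (ENNReal.ofReal (lam ^ (E + η)) *
            ENNReal.ofReal (Li K lam4 K ^ (-τ)) * B) := by
          ring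
      _ ≤ c0 * X := by
          refine mul_le_mul' (mul_le_mul' le_add_self le_rfl) (mul_le_mul' ?_ le_rfl)
          rw [← ENNReal.ofReal_mul hL0]
          exact ENNReal.ofReal_le_ofReal hreal
  -- downward induction
  have hind : ∀ j ≤ K, ∫⁻ q, ‖MM (mT lam q.1) (gs P K lam4 (K - j) f) q.2‖ₑ ^ p ∂(stm d) ≤
      T ^ j * (c0 * X) := by
    intro j
    induction j with
    | zero =>
      intro _
      rw [pow_zero, one_mul]
      exact hI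
    | succ j ih =>
      intro hj
      have ih' := ih (by omega)
      obtain ⟨i, hi⟩ : ∃ i, K - j = i + 1 := ⟨K - (j + 1), by omega⟩
      have hi' : K - (j + 1) = i := by omega
      have hiK : i < K := by omega
      rw [hi] at ih'
      rw [hi']
      have hL1 : 1 ≤ Li K lam4 (i + 1) := Li_ge hl4 _
      have hgi := hg i
      have hAA : Gd (P (Li K lam4 (i + 1)) (gs P K lam4 i f)) := hP.gd _ _ hL1 hgi
      have h2top : (2 : ℝ≥0∞) ^ (p - 1) ≠ ⊤ := by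
        apply ENNReal.rpow_ne_top_of_nonneg (by linarith) (by norm_num)
      have hpt : ∀ q : ℝ × EE d, ‖MM (mT lam q.1) (gs P K lam4 i f) q.2‖ₑ ^ p ≤
          (2 : ℝ≥0∞) ^ (p - 1) * (‖MM (mT lam q.1) (P (Li K lam4 (i + 1))
            (gs P K lam4 i f)) q.2‖ₑ ^ p +
            ‖MM (mT lam q.1) (gs P K lam4 (i + 1) f) q.2‖ₑ ^ p) := by
        intro q
        have h1 : MM (mT lam q.1) (gs P K lam4 (i + 1) f) q.2 =
            MM (mT lam q.1) (gs P K lam4 i f) q.2 -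
            MM (mT lam q.1) (P (Li K lam4 (i + 1)) (gs P K lam4 i f)) q.2 :=
          MM_sub' hl0 hPLE q.1 hgi hAA q.2
        have h2 : MM (mT lam q.1) (gs P K lam4 i f) q.2 =
            MM (mT lam q.1) (P (Li K lam4 (i + 1)) (gs P K lam4 i f)) q.2 +
            MM (mT lam q.1) (gs P K lam4 (i + 1) f) q.2 := by
          rw [h1]
          ring
        rw [h2]
        exact eadd_rpow p hp1 _ _
      have hT1 : (1 : ℝ≥0∞) ≤ T ^ j := one_le_pow₀ hT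
      calc ∫⁻ q, ‖MM (mT lam q.1) (gs P K lam4 i f) q.2‖ₑ ^ p ∂(stm d)
          ≤ ∫⁻ q, (2 : ℝ≥0∞) ^ (p - 1) * (‖MM (mT lam q.1) (P (Li K lam4 (i + 1))
            (gs P K lam4 i f)) q.2‖ₑ ^ p +
            ‖MM (mT lam q.1) (gs P K lam4 (i + 1) f) q.2‖ₑ ^ p) ∂(stm d) :=
            lintegral_mono hpt
        _ = (2 : ℝ≥0∞) ^ (p - 1) * ((∫⁻ q, ‖MM (mT lam q.1) (P (Li K lam4 (i + 1))
            (gs P K lam4 i f)) q.2‖ₑ ^ p ∂(stm d)) +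
            ∫⁻ q, ‖MM (mT lam q.1) (gs P K lam4 (i + 1) f) q.2‖ₑ ^ p ∂(stm d)) := by
            rw [lintegral_const_mul' _ _ h2top, lintegral_add_left (hmeas _ hAA)]
        _ ≤ (2 : ℝ≥0∞) ^ (p - 1) * (T ^ j * (c0 * X) + T ^ j * (c0 * X)) := by
            refine mul_le_mul' le_rfl (add_le_add ?_ ih')
            refine (hJ i hiK).trans ?_
            calc c0 * X = 1 * (c0 * X) := (one_mul _).symm
              _ ≤ _ := mul_le_mul' hT1 le_rfl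
        _ = T ^ (j + 1) * (c0 * X) := by
            rw [← two_mul, ← mul_assoc, two_mul_rpow, pow_succ, ← mul_assoc, ← hTdef]
            ring
  have hfin := hind K le_rfl
  rw [Nat.sub_self] at hfin
  rw [st_eq (fun q => ‖MM (mT lam q.1) f q.2‖ₑ ^ p) (hmeas _ hf)]
  refine hfin.trans (le_of_eq ?_)
  rw [hX]
  ring

theorem pf_bl3 (hSG3 : T_SG3) (hAQP : T_AQP) (hAM1 : Pool.Agent.H93.AR.T_AM1)
    (hAM2 : Pool.Agent.H93.AR.T_AM2) (hAD : T_AD2) (hFX : T_FX) (hPLE : T_PLE) : T_BL3 := by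
  intro a b p η ha hb hp hη
  have ha1 : 1 ≤ a := by omega
  have hb1 : 1 ≤ b := by omega
  have haR : (2 : ℝ) ≤ a := by exact_mod_cast ha
  have hbR : (1 : ℝ) ≤ b := by exact_mod_cast hb
  have hN : 0 < (a : ℝ) + b - 1 := by linarith
  have h2n : 0 < 2 / ((a : ℝ) + b - 1) := by positivity
  have hp2 : 2 < p := by linarith
  have hp1 : 1 ≤ p := by linarith
  have hp0 : 0 < p := by linarith
  obtain ⟨CS, hCS⟩ := hSG3 a b p (η / 2) ha hb hp (by positivity)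
  have hτ0 : 1 / 2 ≤ p * th p := by
    have h1 : 1 / (2 * p) ≤ th p := le_max_right _ _
    calc (1 : ℝ) / 2 = p * (1 / (2 * p)) := by field_simp
      _ ≤ _ := mul_le_mul_of_nonneg_left h1 hp0.le
  have hτ1 : p * th p ≤ 1 := by
    rw [th, mul_max_of_nonneg _ _ hp0.le]
    refine max_le ?_ ?_
    · have : p * (2 / p - 1 / 2) = 2 - p / 2 := by field_simp
      linarith
    · have : p * (1 / (2 * p)) = 1 / 2 := by field_simp
      linarith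
  have hth1 : th p ≤ 1 := by
    have := th_le_half hp2
    linarith
  obtain ⟨CF, hCF⟩ := fx_aux hFX hb1 (by omega : 2 ≤ a + b) p η hp2 hη
  obtain ⟨CD, hCD⟩ := hAD a b p ha1 hb1 hp1
  set CD' : ℝ≥0 := (ENNReal.ofReal ((4 : ℝ) ^ p)).toNNReal * CD *
    (((b : ℝ≥0) * b) + ((a : ℝ≥0) * a)) with hCD'
  obtain ⟨C, hC⟩ := bl_abs3 (aq_ppr hAQP ha1 hb1) hPLE ((a : ℝ) + b - 1) p η (th p) (p * th p)
    hN hp hη (th_nonneg hp2) hth1 rfl hτ0 hτ1 CS CF CD' hCS hCF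
  refine ⟨C, fun lam f B₀ B₁ hl h01 hB₀ hB₁ => ?_⟩
  have hf : Gd (f : EE (a + b) → ℂ) :=
    ⟨f.continuous.measurable, f.integrable, _, fun x => SchwartzMap.norm_le_seminorm ℂ f x⟩
  refine hC lam f B₀ B₁ hl h01 hf hB₀ fun L hL => ?_
  have h1 := Pool.Agent.H48.BR.aqp_dist hAM1 hAM2 a b L ha1 hb1 hL f p hf.1 hf.2.2 hp1
  obtain ⟨h2, h3⟩ := hCD L f hL
  have h4 : ∑ i : Fin b, ∑ j : Fin b,
      ∫⁻ x, ‖rotd (Fin.natAdd a i) (Fin.natAdd a j) f x‖ₑ ^ p ≤ ((b : ℝ≥0∞) * b) * B₁ := by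
    calc ∑ i : Fin b, ∑ j : Fin b,
          ∫⁻ x, ‖rotd (Fin.natAdd a i) (Fin.natAdd a j) f x‖ₑ ^ p
        ≤ ∑ _i : Fin b, ∑ _j : Fin b, B₁ :=
          Finset.sum_le_sum fun i _ => Finset.sum_le_sum fun j _ => hB₁ _ _ (by simp)
      _ = _ := by
          rw [Finset.sum_const, Finset.sum_const, Finset.card_univ, Fintype.card_fin,
            nsmul_eq_mul, nsmul_eq_mul]
          ring
  have h5 : ∑ i : Fin a, ∑ j : Fin a,
      ∫⁻ x, ‖rotd (Fin.castAdd b i) (Fin.castAdd b j) f x‖ₑ ^ p ≤ ((a : ℝ≥0∞) * a) * B₁ := by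
    calc ∑ i : Fin a, ∑ j : Fin a,
          ∫⁻ x, ‖rotd (Fin.castAdd b i) (Fin.castAdd b j) f x‖ₑ ^ p
        ≤ ∑ _i : Fin a, ∑ _j : Fin a, B₁ :=
          Finset.sum_le_sum fun i _ => Finset.sum_le_sum fun j _ => hB₁ _ _ (by simp)
      _ = _ := by
          rw [Finset.sum_const, Finset.sum_const, Finset.card_univ, Fintype.card_fin,
            nsmul_eq_mul, nsmul_eq_mul]
          ring
  have h6 : (CD' : ℝ≥0∞) = ENNReal.ofReal ((4 : ℝ) ^ p) * CD *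
      (((b : ℝ≥0∞) * b) + ((a : ℝ≥0∞) * a)) := by
    rw [hCD']
    push_cast
    rw [ENNReal.coe_toNNReal ENNReal.ofReal_ne_top]
  refine h1.trans ?_
  calc ENNReal.ofReal ((4 : ℝ) ^ p) *
        ((∫⁻ x, ‖f x - A2 a b L f x‖ₑ ^ p) + ∫⁻ x, ‖f x - A1 a b L f x‖ₑ ^ p)
      ≤ ENNReal.ofReal ((4 : ℝ) ^ p) *
        (CD * ENNReal.ofReal (L ^ (-p)) * (((b : ℝ≥0∞) * b) * B₁) +
          CD * ENNReal.ofReal (L ^ (-p)) * (((a : ℝ≥0∞) * a) * B₁)) := by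
        refine mul_le_mul' le_rfl (add_le_add ?_ ?_)
        · exact h2.trans (mul_le_mul' le_rfl h4)
        · exact h3.trans (mul_le_mul' le_rfl h5)
    _ = _ := by
        rw [h6]
        ring

end Pool.Agent.H56.TN
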